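import Pool.Agent.W659.SA.Defs

set_option autoImplicit false

/-! The number of the classes. -/

namespace Pool.Agent.W32.SA.ASH

open Filter Topology

theorem main : Pool.Agent.W659.SA.S_ASH := by
  intro R C τ hC hτ hτ1
  obtain ⟨δ, hδ⟩ : ∃ δ : ℝ, δ = (1 - τ) / 4 := ⟨_, rfl⟩
  have hδ0 : 0 < δ := by rw [hδ]; linarith
  have hβ : (1 + τ) / 2 = (τ + δ) + δ := by rw [hδ]; ring
  obtain ⟨M, hM⟩ : ∃ M : ℝ, M = R * (1 + 2 / δ) * (C + 1) ^ (τ + δ) := ⟨_, rfl⟩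
  have h1 : ∀ᶠ X : ℝ in atTop, M ≤ X ^ δ := (tendsto_rpow_atTop hδ0).eventually_ge_atTop M
  have h2 : ∀ᶠ X : ℝ in atTop, 1 ≤ X := eventually_ge_atTop 1
  have h3 : Tendsto (fun H : ℕ => Real.log H) atTop atTop :=
    Real.tendsto_log_atTop.comp tendsto_natCast_atTop_atTop
  obtain ⟨H0, hH0⟩ := eventually_atTop.1 (h3.eventually (h1.and h2))
  refine ⟨max H0 3, le_max_right _ _, fun H hH y hy => ?_⟩
  obtain ⟨hX1, hX2⟩ := hH0 H ((le_max_left _ _).trans hH)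
  obtain ⟨X, hX⟩ : ∃ X : ℝ, X = Real.log H := ⟨_, rfl⟩
  rw [← hX] at hX1 hX2 hy ⊢
  have hy0 : (0 : ℝ) ≤ y := Nat.cast_nonneg y
  obtain ⟨Z, hZ⟩ : ∃ Z : ℝ, Z = (y : ℝ) + 1 := ⟨_, rfl⟩
  have hZ1 : 1 ≤ Z := by rw [hZ]; linarith
  have hZX : Z ≤ (C + 1) * X := by rw [hZ]; nlinarith
  have hZ0 : 0 < Z := by linarith
  rw [← hZ]
  -- the exponent
  have hfl : ((⌊(y : ℝ) ^ τ⌋₊ : ℕ) : ℝ) ≤ Z ^ τ := by
    refine (Nat.floor_le (by positivity)).trans ?_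
    exact Real.rpow_le_rpow hy0 (by rw [hZ]; linarith) hτ.le
  have hlog : Real.log Z ≤ Z ^ δ / δ := Real.log_le_rpow_div hZ0.le hδ0
  have hlog0 : 0 ≤ Real.log Z := Real.log_nonneg hZ1
  have hZτ : 0 ≤ Z ^ τ := Real.rpow_nonneg hZ0.le _
  have h4 : Real.log ((2 * Z ^ (2 * ⌊(y : ℝ) ^ τ⌋₊)) ^ R) ≤ X ^ ((1 + τ) / 2) := by
    rw [Real.log_pow, Real.log_mul (by norm_num) (by positivity), Real.log_pow]
    have h5 : Real.log 2 ≤ 1 := by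
      have := Real.log_two_lt_d9
      linarith
    have h6 : ((2 * ⌊(y : ℝ) ^ τ⌋₊ : ℕ) : ℝ) * Real.log Z ≤ 2 / δ * Z ^ (τ + δ) := by
      rw [Real.rpow_add hZ0]
      push_cast
      have h7 : ((⌊(y : ℝ) ^ τ⌋₊ : ℕ) : ℝ) * Real.log Z ≤ Z ^ τ * (Z ^ δ / δ) :=
        mul_le_mul hfl hlog hlog0 hZτ
      calc (2 : ℝ) * ((⌊(y : ℝ) ^ τ⌋₊ : ℕ) : ℝ) * Real.log Z =
          2 * (((⌊(y : ℝ) ^ τ⌋₊ : ℕ) : ℝ) * Real.log Z) := by ring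
        _ ≤ 2 * (Z ^ τ * (Z ^ δ / δ)) := by linarith
        _ = _ := by ring
    have h8 : 1 ≤ Z ^ (τ + δ) := Real.one_le_rpow hZ1 (by linarith)
    have h9 : Z ^ (τ + δ) ≤ (C + 1) ^ (τ + δ) * X ^ (τ + δ) := by
      rw [← Real.mul_rpow (by linarith) (by linarith)]
      exact Real.rpow_le_rpow hZ0.le hZX (by linarith)
    have hR : (0 : ℝ) ≤ R := Nat.cast_nonneg R
    have hXp : 0 ≤ X ^ (τ + δ) := Real.rpow_nonneg (by linarith) _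
    calc (R : ℝ) * (Real.log 2 + ((2 * ⌊(y : ℝ) ^ τ⌋₊ : ℕ) : ℝ) * Real.log Z) ≤
        R * (1 * Z ^ (τ + δ) + 2 / δ * Z ^ (τ + δ)) := by
          refine mul_le_mul_of_nonneg_left ?_ hR
          linarith
      _ = R * (1 + 2 / δ) * Z ^ (τ + δ) := by ring
      _ ≤ R * (1 + 2 / δ) * ((C + 1) ^ (τ + δ) * X ^ (τ + δ)) :=
          mul_le_mul_of_nonneg_left h9 (by positivity)
      _ = M * X ^ (τ + δ) := by rw [hM]; ring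
      _ ≤ X ^ δ * X ^ (τ + δ) := mul_le_mul_of_nonneg_right hX1 hXp
      _ = X ^ ((1 + τ) / 2) := by
          rw [hβ, Real.rpow_add (by linarith) (τ + δ) δ]; ring
  have hp : 0 < (2 * Z ^ (2 * ⌊(y : ℝ) ^ τ⌋₊)) ^ R := by positivity
  rw [← Real.exp_log hp, Real.exp_le_exp]
  exact h4

end Pool.Agent.W32.SA.ASH
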